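import Pool.Agent.H18.HX.Targets
import Pool.Agent.H99.HIT.RTD

/-!
# Row DGX: the degree of a map without base points
-/

set_option autoImplicit false

open MvPolynomial
open Pool.Agent.H12.ZD (pmap v O Res DenseOrbit NoInv)
open Pool.Agent.H18.HIT Pool.Agent.H18.HX

namespace Pool.Agent.H99.HX

/-- the Hilbert function and generation over the image -/
theorem dgx_le {L e : ℕ} {k : Type} [Field k] (I : Ideal (Po L k)) [I.IsPrime] (f : Tup L k)
    (θ s : Po L k) (t t' : ℕ) (hinv : ∀ c ∈ I, aeval f c ∈ I) (hs : aeval f s ∉ I)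
    (h : ∀ u : Po L k, u.totalDegree ≤ t → ∃ c : Fin e → Po L k,
      (∀ j, (c j).totalDegree ≤ t') ∧
      aeval f s * u - ∑ j : Fin e, θ ^ (j : ℕ) * aeval f (c j) ∈ I) :
    Hf I t ≤ e * Hf I t' := by
  classical
  have hdom : IsDomain (Po L k ⧸ I) := Ideal.Quotient.isDomain I
  obtain ⟨φ, hφ⟩ : ∃ φ : (Po L k ⧸ I) →ₐ[k] (Po L k ⧸ I),
      ∀ a, φ (Ideal.Quotient.mk I a) = Ideal.Quotient.mk I (aeval f a) :=
    ⟨Ideal.Quotient.liftₐ I ((Ideal.Quotient.mkₐ k I).comp (aeval f))
      (fun a ha => Ideal.Quotient.eq_zero_iff_mem.2 (hinv a ha)), fun a => rfl⟩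
  have hfin : Module.Finite k (restrictTotalDegree (Fin L) k t') :=
    (Pool.Agent.H99.HIT.pf_RTD L k t').1
  have hfin2 : Module.Finite k (restrictTotalDegree (Fin L) k t) :=
    (Pool.Agent.H99.HIT.pf_RTD L k t).1
  obtain ⟨U, hU⟩ : ∃ U : Submodule k (Po L k ⧸ I), U = Submodule.map
    (Ideal.Quotient.mkₐ k I).toLinearMap (restrictTotalDegree (Fin L) k t') := ⟨_, rfl⟩
  have hUf : Module.Finite k U := by
    rw [hU]
    exact Module.Finite.map _ _
  obtain ⟨W, hW⟩ : ∃ W : Submodule k (Po L k ⧸ I), W = Submodule.map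
    (Ideal.Quotient.mkₐ k I).toLinearMap (restrictTotalDegree (Fin L) k t) := ⟨_, rfl⟩
  have hWf : Module.Finite k W := by
    rw [hW]
    exact Module.Finite.map _ _
  obtain ⟨Φ, hΦ⟩ : ∃ Φ : (Fin e → U) →ₗ[k] (Po L k ⧸ I), ∀ v, Φ v =
      ∑ j : Fin e, Ideal.Quotient.mk I (θ ^ (j : ℕ)) * φ ((v j : U) : Po L k ⧸ I) := by
    refine ⟨∑ j : Fin e, (LinearMap.mulLeft k (Ideal.Quotient.mk I (θ ^ (j : ℕ)))) ∘ₗ
      φ.toLinearMap ∘ₗ U.subtype ∘ₗ (LinearMap.proj j), fun v => ?_⟩
    rw [LinearMap.sum_apply]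
    rfl
  have hinj : Function.Injective (LinearMap.mulLeft k (Ideal.Quotient.mk I (aeval f s))) := by
    have h0 : (Ideal.Quotient.mk I) (aeval f s) ≠ 0 := by
      rw [ne_eq, Ideal.Quotient.eq_zero_iff_mem]
      exact hs
    intro a b hab
    exact mul_left_cancel₀ h0 hab
  have hle : Submodule.map (LinearMap.mulLeft k (Ideal.Quotient.mk I (aeval f s))) W ≤
      LinearMap.range Φ := by
    rintro _ ⟨w, hw, rfl⟩
    have hw' : w ∈ W := hw
    rw [hW] at hw'
    obtain ⟨u, hu, rfl⟩ := hw'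
    have hu' : u.totalDegree ≤ t := (mem_restrictTotalDegree _ _ _).1 hu
    obtain ⟨cc, hcc, hdiff⟩ := h u hu'
    refine ⟨fun m => ⟨Ideal.Quotient.mk I (cc m), ?_⟩, ?_⟩
    · rw [hU]
      exact ⟨cc m, (mem_restrictTotalDegree _ _ _).2 (hcc m), rfl⟩
    · rw [hΦ]
      have h1 : (Ideal.Quotient.mk I) (aeval f s * u) = (Ideal.Quotient.mk I)
          (∑ j : Fin e, θ ^ (j : ℕ) * aeval f (cc j)) := Ideal.Quotient.eq.2 hdiff
      show _ = (Ideal.Quotient.mk I) (aeval f s) * (Ideal.Quotient.mk I) u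
      rw [← map_mul, h1, map_sum]
      refine Finset.sum_congr rfl fun m _ => ?_
      rw [hφ, map_mul]
  have h1 : Hf I t ≤ Module.finrank k (LinearMap.range Φ) := by
    have e1 : Hf I t = Module.finrank k W := by
      rw [hW]
      rfl
    have e2 : Module.finrank k (Submodule.map
        (LinearMap.mulLeft k (Ideal.Quotient.mk I (aeval f s))) W) = Module.finrank k W :=
      (LinearEquiv.finrank_eq (Submodule.equivMapOfInjective _ hinj W)).symm
    rw [e1, ← e2]
    exact Submodule.finrank_mono hle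
  have h2 : Module.finrank k (LinearMap.range Φ) ≤ Module.finrank k (Fin e → U) :=
    LinearMap.finrank_range_le Φ
  have h3 : Module.finrank k (Fin e → U) = e * Module.finrank k U := by
    rw [Module.finrank_pi_fintype, Finset.sum_const, Finset.card_univ, Fintype.card_fin,
      smul_eq_mul]
  have h4 : Module.finrank k U = Hf I t' := by
    rw [hU]
    rfl
  rw [h3, h4] at h2
  exact h1.trans h2

theorem pf_DGX (hGEN : T_GEN) (hHLO : T_HLO) : T_DGX := by
  intro L N q e k _ _ _ I _ l f θ hN hq hl hI hli hf hbp hslf hθ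
  classical
  obtain ⟨M, hM⟩ := hGEN L q k I f (by omega) hI hf hbp
  obtain ⟨S, hS⟩ : ∃ S : Finset (Fin L →₀ ℕ),
    S = (Finset.Iic (Finsupp.equivFunOnFinite.symm fun _ : Fin L => M)) := ⟨_, rfl⟩
  rw [← hS] at hM
  choose s c hs hc using fun m : Fin L →₀ ℕ => hθ (monomial m 1)
  obtain ⟨D, hD⟩ : ∃ D : ℕ, ∀ m ∈ S, ∀ j : Fin e,
      ((∏ m' ∈ S.erase m, s m') * c m j).totalDegree ≤ D :=
    ⟨S.sup fun m => Finset.univ.sup fun j : Fin e =>
      ((∏ m' ∈ S.erase m, s m') * c m j).totalDegree, fun m hm j =>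
      (Finset.le_sup (f := fun j : Fin e => ((∏ m' ∈ S.erase m, s m') * c m j).totalDegree)
        (Finset.mem_univ j)).trans
      (Finset.le_sup (f := fun m => Finset.univ.sup fun j : Fin e =>
        ((∏ m' ∈ S.erase m, s m') * c m j).totalDegree) hm)⟩
  have hsI : (∏ m ∈ S, s m) ∉ I := by
    intro h0
    obtain ⟨m, _, hm⟩ := (Ideal.IsPrime.prod_mem_iff (p := I)).mp h0
    exact hs m hm
  have hstep : ∀ t, Hf I t ≤ e * Hf I (D + t / q) := by
    intro t
    refine dgx_le I f θ (∏ m ∈ S, s m) t (D + t / q) hslf.inv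
      (fun h0 => hsI (hslf.inj _ h0)) ?_
    intro u hu
    obtain ⟨cc, hcc, hdiff⟩ := hM t u hu
    refine ⟨fun j => ∑ m ∈ S, ((∏ m' ∈ S.erase m, s m') * c m j) * cc m, ?_, ?_⟩
    · intro j
      refine totalDegree_finsetSum_le ?_
      intro m hm
      refine (totalDegree_mul _ _).trans (Nat.add_le_add (hD m hm j) ?_)
      rw [Nat.le_div_iff_mul_le (by omega), mul_comm]
      exact hcc m
    · have key : aeval f (∏ m ∈ S, s m) * u - ∑ j : Fin e, θ ^ (j : ℕ) *
          aeval f (∑ m ∈ S, ((∏ m' ∈ S.erase m, s m') * c m j) * cc m) =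
          aeval f (∏ m ∈ S, s m) * (u - ∑ m ∈ S, monomial m 1 * aeval f (cc m)) +
          ∑ m ∈ S, aeval f (∏ m' ∈ S.erase m, s m') * aeval f (cc m) *
            (aeval f (s m) * monomial m 1 - ∑ j : Fin e, θ ^ (j : ℕ) * aeval f (c m j)) := by
        have e1 : ∑ j : Fin e, θ ^ (j : ℕ) *
            aeval f (∑ m ∈ S, ((∏ m' ∈ S.erase m, s m') * c m j) * cc m) =
            ∑ m ∈ S, aeval f (∏ m' ∈ S.erase m, s m') * aeval f (cc m) *
              ∑ j : Fin e, θ ^ (j : ℕ) * aeval f (c m j) := by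
          simp only [map_sum, map_mul, Finset.mul_sum]
          rw [Finset.sum_comm]
          refine Finset.sum_congr rfl fun m _ => Finset.sum_congr rfl fun j _ => ?_
          ring
        have e2 : aeval f (∏ m ∈ S, s m) * ∑ m ∈ S, monomial m 1 * aeval f (cc m) =
            ∑ m ∈ S, aeval f (∏ m' ∈ S.erase m, s m') * aeval f (cc m) *
              (aeval f (s m) * monomial m 1) := by
          rw [Finset.mul_sum]
          refine Finset.sum_congr rfl fun m hm => ?_
          rw [← Finset.prod_erase_mul S s hm, map_mul]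
          ring
        rw [e1, mul_sub, e2]
        simp only [mul_sub, Finset.sum_sub_distrib]
        ring
      rw [key]
      refine I.add_mem (I.mul_mem_left _ hdiff) (I.sum_mem fun m _ => I.mul_mem_left _ (hc m))
  by_contra hlt
  have hlt' : e < q ^ N := not_le.mp hlt
  -- the sequence of degrees
  obtain ⟨T, hT0, hT1⟩ : ∃ T : ℕ → ℕ, T 0 = 2 * D + 1 ∧ ∀ n, T (n + 1) = q * (T n - D) :=
    ⟨fun n => Nat.rec (2 * D + 1) (fun _ r => q * (r - D)) n, rfl, fun n => rfl⟩
  have hTn : ∀ n, q ^ n + 2 * D ≤ T n := by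
    intro n
    induction n with
    | zero => rw [hT0, pow_zero]; omega
    | succ n ih =>
      rw [hT1]
      have h1 : q ^ n + D ≤ T n - D := by omega
      have h2 := Nat.mul_le_mul_left q h1
      rw [mul_add, ← pow_succ'] at h2
      have h3 : 2 * D ≤ q * D := Nat.mul_le_mul_right D hq
      omega
  have hHn : ∀ n, Hf I (T n) ≤ e ^ n * Hf I (T 0) := by
    intro n
    induction n with
    | zero => simp
    | succ n ih =>
      have h1 := hstep (T (n + 1))
      have h2 : D + T (n + 1) / q = T n := by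
        rw [hT1, Nat.mul_div_cancel_left _ (by omega)]
        have := hTn n
        omega
      rw [h2] at h1
      refine h1.trans ((Nat.mul_le_mul_left e ih).trans (le_of_eq ?_))
      ring
  have hfin : ∀ n, (q ^ N) ^ n ≤ N.factorial * Hf I (T 0) * e ^ n := by
    intro n
    have h1 : (T n + 1) ^ N ≤ (T n + 1).ascFactorial N := Nat.pow_succ_le_ascFactorial _ _
    rw [Nat.ascFactorial_eq_factorial_mul_choose] at h1
    have h2 := hHLO L N k I l hl hli (T n)
    have h3 : (T n + 1 + N - 1) = T n + N := by omega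
    have h4 : (q ^ N) ^ n ≤ (T n + 1) ^ N := by
      rw [← pow_mul, mul_comm, pow_mul]
      exact Nat.pow_le_pow_left (by have := hTn n; omega) N
    have h5 : N.factorial * (T n + N).choose N ≤
        N.factorial * (e ^ n * Hf I (T 0)) := Nat.mul_le_mul_left _ (h2.trans (hHn n))
    calc (q ^ N) ^ n ≤ (T n + 1) ^ N := h4
      _ ≤ N.factorial * (T n + N).choose N := by
        exact h1
      _ ≤ N.factorial * (e ^ n * Hf I (T 0)) := h5
      _ = N.factorial * Hf I (T 0) * e ^ n := by ring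
  have he : 0 < e := by
    rcases Nat.eq_zero_or_pos e with h0 | h0
    · exfalso
      have h1 := hfin 1
      rw [h0] at h1
      have h2 : 0 < q ^ N := Nat.pow_pos (by omega)
      simp at h1
      omega
    · exact h0
  have hr : (1 : ℝ) < ((q ^ N : ℕ) : ℝ) / (e : ℝ) := by
    rw [lt_div_iff₀ (by exact_mod_cast he), one_mul]
    exact_mod_cast hlt'
  obtain ⟨n, hn⟩ := pow_unbounded_of_one_lt ((N.factorial * Hf I (T 0) : ℕ) : ℝ) hr
  have h1 : (((q ^ N) ^ n : ℕ) : ℝ) ≤ ((N.factorial * Hf I (T 0) * e ^ n : ℕ) : ℝ) := by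
    exact_mod_cast hfin n
  rw [div_pow, lt_div_iff₀ (by positivity)] at hn
  push_cast at h1 hn
  linarith

end Pool.Agent.H99.HX
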