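import Pool.Agent.H18.HX.Targets
import Pool.Agent.H19.SFG.NN
import Pool.Agent.H63.SFG.PRE
import Pool.Agent.H48.SFG.ITA
import Pool.Agent.H36.SFG.NN1

/-!
# Row NFA: projection data
-/

set_option autoImplicit false

open MvPolynomial
open Pool.Agent.H12.ZD (pmap v O Res DenseOrbit NoInv)
open Pool.Agent.H18.HIT Pool.Agent.H18.HX

namespace Pool.Agent.H99.HX

open Pool.Agent.H3.SF Pool.Agent.H17.SD
open scoped IntermediateField.algebraAdjoinAdjoin

/-- clearing denominators -/
theorem nfa_den {k F : Type} [Field k] [Field F] [Algebra k F] {N : ℕ} (u : Fin N → F) (θ : F)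
    [FiniteDimensional (kF k u) F] (hθ : IntermediateField.adjoin (kF k u) {θ} = ⊤) (z : F) :
    ∃ (Δ : MvPolynomial (Fin N) k) (R : Polynomial (MvPolynomial (Fin N) k)), aeval u Δ ≠ 0 ∧
      aeval u Δ * z = R.eval₂ ((aeval u : MvPolynomial (Fin N) k →ₐ[k] F) :
        MvPolynomial (Fin N) k →+* F) θ := by
  have hint : IsIntegral (kF k u) θ := Algebra.IsIntegral.isIntegral θ
  have hz : z ∈ (IntermediateField.adjoin (kF k u) {θ}).toSubalgebra := by
    rw [hθ]
    exact IntermediateField.mem_top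
  rw [IntermediateField.adjoin_simple_toSubalgebra_of_isAlgebraic hint.isAlgebraic,
    Algebra.adjoin_singleton_eq_range_aeval] at hz
  obtain ⟨p, hp⟩ := hz
  have hp' : Polynomial.aeval θ p = z := hp
  obtain ⟨b, hb, hbp⟩ := IsLocalization.integerNormalization_spec
    (nonZeroDivisors (PA k u)) p
  let φ : MvPolynomial (Fin N) k →ₐ[k] PA k u :=
    (aeval u : MvPolynomial (Fin N) k →ₐ[k] F).codRestrict (PA k u) (by
      intro q
      have : aeval u q ∈ (aeval u : MvPolynomial (Fin N) k →ₐ[k] F).range := ⟨q, rfl⟩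
      rwa [← Algebra.adjoin_range_eq_range_aeval] at this)
  have hφ : Function.Surjective φ := by
    rintro ⟨a, ha⟩
    have h1 : a ∈ Algebra.adjoin k (Set.range u) := ha
    rw [Algebra.adjoin_range_eq_range_aeval] at h1
    obtain ⟨q, hq⟩ := h1
    exact ⟨q, Subtype.ext hq⟩
  obtain ⟨Δ, hΔ⟩ := hφ b
  obtain ⟨R, hR⟩ := Polynomial.map_surjective (φ : MvPolynomial (Fin N) k →+* PA k u) hφ
    (IsLocalization.integerNormalization (nonZeroDivisors (PA k u)) p)
  have hΔ' : aeval u Δ = (b : F) := congrArg Subtype.val hΔ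
  refine ⟨Δ, R, ?_, ?_⟩
  · rw [hΔ']
    intro h0
    exact nonZeroDivisors.ne_zero hb (Subtype.ext h0)
  · have h1 : ((aeval u : MvPolynomial (Fin N) k →ₐ[k] F) : MvPolynomial (Fin N) k →+* F) =
        (algebraMap (PA k u) F).comp (φ : MvPolynomial (Fin N) k →+* PA k u) := by
      ext i <;> rfl
    rw [h1, ← Polynomial.eval₂_map, hR,
      IsScalarTower.algebraMap_eq (PA k u) (kF k u) F, ← Polynomial.eval₂_map, hbp]
    have h2 : Polynomial.eval₂ (algebraMap (kF k u) F) θ (b • p) =
        Polynomial.aeval θ (b • p) := rfl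
    rw [h2, ← IsScalarTower.algebraMap_smul (kF k u) b p, map_smul, hp', hΔ']
    rfl

/-- the function field of the cone -/
theorem nfa_frac {k : Type} [Field k] {L : ℕ} (I : Ideal (Po L k)) [I.IsPrime] :
    ∃ (F : Type) (_ : Field F) (_ : Algebra k F) (x : Fin L → F),
      (∀ f : Po L k, aeval x f = 0 ↔ f ∈ I) ∧ IntermediateField.adjoin k (Set.range x) = ⊤ := by
  have hdom : IsDomain (Po L k ⧸ I) := Ideal.Quotient.isDomain I
  let F := FractionRing (Po L k ⧸ I)
  let g : Po L k →ₐ[k] F := (IsScalarTower.toAlgHom k (Po L k ⧸ I) F).comp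
    (Ideal.Quotient.mkₐ k I)
  have hg : ∀ f : Po L k, aeval (fun i => g (X i)) f = g f := by
    intro f
    have h : aeval (fun i => g (X i)) = g := by
      apply MvPolynomial.algHom_ext
      intro i
      rw [aeval_X]
    rw [h]
  refine ⟨F, inferInstance, inferInstance, fun i => g (X i), ?_, ?_⟩
  · intro f
    rw [hg]
    have h1 : g f = algebraMap (Po L k ⧸ I) F (Ideal.Quotient.mk I f) := rfl
    rw [h1, IsFractionRing.to_map_eq_zero_iff, Ideal.Quotient.eq_zero_iff_mem]
  · rw [eq_top_iff]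
    intro z _
    obtain ⟨a, b, hb, rfl⟩ := IsFractionRing.div_surjective (A := Po L k ⧸ I) z
    obtain ⟨a, rfl⟩ := Ideal.Quotient.mk_surjective a
    obtain ⟨b, rfl⟩ := Ideal.Quotient.mk_surjective b
    have h2 : ∀ f : Po L k, algebraMap (Po L k ⧸ I) F (Ideal.Quotient.mk I f) ∈
        IntermediateField.adjoin k (Set.range fun i => g (X i)) := by
      intro f
      have h3 : algebraMap (Po L k ⧸ I) F (Ideal.Quotient.mk I f) =
        aeval (fun i => g (X i)) f := (hg f).symm
      rw [h3]
      have h4 : aeval (fun i => g (X i)) f ∈ Algebra.adjoin k (Set.range fun i => g (X i)) := by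
        rw [Algebra.adjoin_range_eq_range_aeval]
        exact ⟨f, rfl⟩
      exact IntermediateField.algebra_adjoin_le_adjoin k _ h4
    exact div_mem (h2 a) (h2 b)

theorem nfa_evg {k F : Type} [Field k] [Field F] [Algebra k F] {L N : ℕ} (x : Fin L → F)
    (u : Fin N → F) (g : Fin N → Po L k) (hg : ∀ j, aeval x (g j) = u j) (θ : Po L k)
    (Φ : Polynomial (Po N k)) :
    aeval x (evg g θ Φ) = Φ.eval₂ ((aeval u : MvPolynomial (Fin N) k →ₐ[k] F) :
        MvPolynomial (Fin N) k →+* F) (aeval x θ) := by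
  unfold evg
  have h := Polynomial.hom_eval₂ Φ (aeval g : Po N k →ₐ[k] Po L k).toRingHom
    ((aeval x : Po L k →ₐ[k] F) : Po L k →+* F) θ
  have h1 : ((aeval x : Po L k →ₐ[k] F) : Po L k →+* F).comp
      (aeval g : Po N k →ₐ[k] Po L k).toRingHom =
      ((aeval u : MvPolynomial (Fin N) k →ₐ[k] F) : MvPolynomial (Fin N) k →+* F) := by
    refine MvPolynomial.ringHom_ext (fun c => ?_) (fun i => ?_)
    · show aeval x (aeval g (C c)) = aeval u (C c)
      rw [aeval_C, aeval_C, AlgHom.commutes]
    · show aeval x (aeval g (X i)) = aeval u (X i)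
      rw [aeval_X, aeval_X, hg]
  rw [h1] at h
  exact h

theorem nfa_comp {k F : Type} [Field k] [Field F] [Algebra k F] {L N : ℕ} (x : Fin L → F)
    (u : Fin N → F) (g : Fin N → Po L k) (hg : ∀ j, aeval x (g j) = u j) (q : Po N k) :
    aeval x (aeval g q) = aeval u q := by
  have h : (aeval x : Po L k →ₐ[k] F).comp (aeval g) = aeval u := by
    apply MvPolynomial.algHom_ext
    intro i
    rw [AlgHom.comp_apply, aeval_X, aeval_X, hg]
  exact DFunLike.congr_fun h q

/-- elements of the span are values of linear forms -/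
theorem nfa_lin {k F : Type} [Field k] [Field F] [Algebra k F] {L : ℕ} (x : Fin L → F) (z : F)
    (hz : z ∈ Submodule.span k (Set.range x)) :
    ∃ l : Po L k, l.IsHomogeneous 1 ∧ aeval x l = z := by
  obtain ⟨c, hc⟩ := (Submodule.mem_span_range_iff_exists_fun k).mp hz
  refine ⟨∑ s, C (c s) * X s, ?_, ?_⟩
  · apply IsHomogeneous.sum
    intro s _
    have h := (isHomogeneous_C (Fin L) (c s)).mul (isHomogeneous_X k s)
    rwa [zero_add] at h
  · rw [← hc, map_sum]
    apply Finset.sum_congr rfl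
    intro s _
    rw [map_mul, aeval_C, aeval_X, Algebra.smul_def]

theorem pf_NFA : T_NFA := by
  intro L k _ _ _ I _ hI hX
  classical
  obtain ⟨F, _, _, x, hx, hxt⟩ := nfa_frac I
  have hrel : HRel k x := by
    intro f hf d
    rw [hx] at hf ⊢
    exact hI f hf d
  obtain ⟨r, u, hu, hul, hui⟩ := Pool.Agent.H19.SFG.pf_NN Pool.Agent.H48.SFG.pf_ITA
    (Pool.Agent.H36.SFG.pf_NN1 Pool.Agent.H48.SFG.pf_ITA) k F L x hrel
  have hint : ∀ s, IsIntegral (kF k u) (x s) := by
    intro s
    have h4 : IsIntegral (PA k u) (x s) :=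
      (Pool.Agent.H48.SFG.pf_ITA k F (Fin r) u (x s)).mp (hui s)
    exact h4.tower_top
  have htop : IntermediateField.adjoin (kF k u) (Set.range x) = ⊤ := by
    have h1 : IntermediateField.adjoin k (Set.range x) ≤
        (IntermediateField.adjoin (kF k u) (Set.range x)).restrictScalars k := by
      rw [IntermediateField.adjoin_le_iff]
      exact IntermediateField.subset_adjoin (kF k u) (Set.range x)
    rw [hxt] at h1
    rw [eq_top_iff]
    intro x _
    exact h1 IntermediateField.mem_top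
  have hfd : FiniteDimensional (kF k u) F := by
    have h4 : FiniteDimensional (kF k u) (IntermediateField.adjoin (kF k u) (Set.range x)) := by
      apply IntermediateField.finiteDimensional_adjoin
      rintro _ ⟨s, rfl⟩
      exact hint s
    rw [htop] at h4
    exact LinearEquiv.finiteDimensional
      (IntermediateField.topEquiv (F := kF k u) (E := F)).toLinearEquiv
  obtain ⟨θ, hθ, hθt⟩ := Pool.Agent.H63.SFG.pf_PRE k F (Fin L) (kF k u) hfd x htop
  choose l' hl' hl'u using fun j => nfa_lin x (u j) (hul j)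
  obtain ⟨l0, hl0, hl0θ⟩ := nfa_lin x θ hθ
  have hr : 1 ≤ r := by
    by_contra hr
    have hr0 : r = 0 := by omega
    subst hr0
    obtain ⟨i, hi⟩ := hX
    apply hi
    obtain ⟨Q, hQ, hQx⟩ := hui i
    let ψ : MvPolynomial (Fin 0) k →ₐ[k] k := aeval (fun j => Fin.elim0 j)
    have hψ : ((aeval u : MvPolynomial (Fin 0) k →ₐ[k] F) : MvPolynomial (Fin 0) k →+* F) =
        (algebraMap k F).comp (ψ : MvPolynomial (Fin 0) k →+* k) := by
      refine MvPolynomial.ringHom_ext (fun c => ?_) (fun j => Fin.elim0 j)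
      show aeval u (C c) = algebraMap k F (ψ (C c))
      have h5 : ψ (C c) = c := by
        show aeval _ (C c) = c
        rw [aeval_C]
        rfl
      rw [h5, aeval_C]
    have hik : IsIntegral k (x i) := by
      refine ⟨Q.map (ψ : MvPolynomial (Fin 0) k →+* k), hQ.map _, ?_⟩
      rw [Polynomial.eval₂_map, ← hψ]
      exact hQx
    have hd := IsAlgClosed.degree_eq_one_of_irreducible k (minpoly.irreducible hik)
    obtain ⟨c, hc⟩ := minpoly.mem_range_of_degree_eq_one k (x i) hd
    have h6 : X i - C c ∈ I := by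
      rw [← hx, map_sub, aeval_X, aeval_C, hc, sub_self]
    have h7 := hI _ h6 1
    rw [map_sub] at h7
    have h8 : homogeneousComponent 1 (X i : Po L k) = X i := by
      rw [homogeneousComponent_of_mem (isHomogeneous_X k i)]
      simp
    have h9 : homogeneousComponent 1 (C c : Po L k) = 0 := by
      rw [homogeneousComponent_of_mem (isHomogeneous_C (Fin L) c)]
      simp
    rwa [h8, h9, sub_zero] at h7
  choose Δ R hΔ hR using fun i => nfa_den u θ hθt (x i)
  refine ⟨r, Fin.cons l0 l', hr, ?_, ?_, ?_, ∏ i, Δ i,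
    fun i => Polynomial.C (∏ j ∈ Finset.univ.erase i, Δ j) * R i, ?_, ?_⟩
  · intro i
    refine Fin.cases ?_ (fun j => ?_) i
    · exact hl0
    · exact hl' j
  · intro q hq
    have h1 : aeval x (aeval l' q) = 0 := (hx _).mpr hq
    rw [nfa_comp x u l' hl'u] at h1
    exact (map_eq_zero_iff _ hu).mp h1
  · intro i
    obtain ⟨Q, hQ, hQx⟩ := hui i
    refine ⟨Q, hQ, ?_⟩
    rw [← hx]
    have h1 := nfa_evg x u l' hl'u (X i) Q
    rw [aeval_X] at h1
    exact h1.trans hQx
  · intro h0
    rw [Finset.prod_eq_zero_iff] at h0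
    obtain ⟨i, _, hi⟩ := h0
    apply hΔ i
    rw [hi, map_zero]
  · intro i
    rw [← hx, map_sub, sub_eq_zero, map_mul, aeval_X]
    have h1 := nfa_comp x u l' hl'u (∏ i, Δ i)
    have h2 := nfa_evg x u l' hl'u l0 (Polynomial.C (∏ j ∈ Finset.univ.erase i, Δ j) * R i)
    refine (congrArg (· * x i) h1).trans (Eq.trans ?_ h2.symm)
    rw [Polynomial.eval₂_mul, Polynomial.eval₂_C, hl0θ, ← hR i,
      ← Finset.prod_erase_mul Finset.univ Δ (Finset.mem_univ i)]
    show aeval u _ * x i = aeval u _ * _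
    rw [map_mul, mul_assoc]

end Pool.Agent.H99.HX
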